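import Pool.Agent.X19.RS.Asm
import Pool.Agent.X306.SS.B
import Pool.Agent.X115.SS.D13
import Pool.Agent.X195.SS.A4D2
import Pool.Agent.X226.A3
import Pool.Agent.X304.RS.Err
import Pool.Agent.X327.RS.DET2
import Pool.Agent.X122.DET1
import Pool.Agent.X72.RSR.Row
import Pool.Agent.X30.RS.HR
import Pool.Agent.X107.RS.TR

/-!
# The randomized SVD is optimal among all algorithms with the sketch `(Om, A Om, A* A Om)`

Full answer to Q1 of MP_569b71_an (proved): for every full-rank random embedding `Om` in `K^(n x l)`, `K = ℝ, ℂ`, all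
`q ≥ 1`, `l ≤ r ≤ min (d, n)`, `q < l - α`, and every algorithm, the worst-case ratio over the matrices of rank `r` is
at least `(r - l)/(r - q) * (1 + q/(l - q - α))`.
-/

set_option autoImplicit false

open MeasureTheory
open scoped ENNReal Matrix

namespace Pool.Agent.Results.MP_569b71_an.RandomizedSVDOptimal

open Pool.Agent.X19.SS Pool.Agent.X19.RS

/-- The statement of Q1 for the field `K` and the number `α`: `worst μ Om q r ALG` is the supremum over the matrices
`A` of rank `r` of `E |A - ALG(Om, A Om, A* A Om)|_F^2 / |A - [A]_q|_F^2`, where the denominator `tailq q A` is the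
squared Frobenius distance of `A` to the matrices of rank at most `q`. -/
def Statement (K : Type) [RCLike K] [MeasurableSpace K] [BorelSpace K] (α : ℕ) : Prop :=
  ∀ (n l d q r : ℕ), 1 ≤ q → l ≤ r → q + α < l → r ≤ d → r ≤ n →
  ∀ (Θ : Type) [MeasurableSpace Θ] (μ : Measure Θ) [IsProbabilityMeasure μ] (Om : Θ → Matrix (Fin n) (Fin l) K),
    (Measurable fun θ => fun (i : Fin n) (j : Fin l) => Om θ i j) → (∀ᵐ θ ∂μ, (Om θ).rank = l) →
  ∀ ALG : Matrix (Fin n) (Fin l) K → Matrix (Fin d) (Fin l) K → Matrix (Fin n) (Fin l) K →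
      Matrix (Fin d) (Fin n) K,
    (Measurable fun s : (Fin n → Fin l → K) × (Fin d → Fin l → K) × (Fin n → Fin l → K) =>
      fun (i : Fin d) (k : Fin n) => ALG (Matrix.of s.1) (Matrix.of s.2.1) (Matrix.of s.2.2) i k) →
    ENNReal.ofReal (((r : ℝ) - l) / ((r : ℝ) - q) * (1 + q / ((l : ℝ) - q - α))) ≤ worst μ Om q r ALG

theorem statement_of (K : Type) [RCLike K] [MeasurableSpace K] [BorelSpace K] (α : ℕ)
    (hα : Module.finrank ℝ K + α = 2) (h1 : 1 ≤ Module.finrank ℝ K) : Statement K α := by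
  intro n l d q r hq hlr hql hrd hrn Θ _ μ _ Om hOm hrk ALG hALG
  obtain ⟨q, rfl⟩ : ∃ q', q = q' + 1 := ⟨q - 1, by omega⟩
  obtain ⟨m, rfl⟩ : ∃ m, r = q + 1 + m := ⟨r - (q + 1), by omega⟩
  obtain ⟨e, rfl⟩ : ∃ e, n = q + 1 + m + e := ⟨n - (q + 1 + m), by omega⟩
  refine le_trans ?_ (main μ Om hOm (q + 1) (q + 1 + m) ALG hALG)
  by_cases hC : worstSVD d μ Om (q + 1) (q + 1 + m) = ∞
  · rw [hC]; exact le_top
  refine arith2 (Module.finrank ℝ K) m l q α hα h1 hql hlr _ ?_
  have hA2 := Pool.Agent.X306.SS.t_A2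
  have hA1 := Pool.Agent.X306.SS.t_A1
  have hB1 := Pool.Agent.X306.SS.t_B1
  have hD1 := Pool.Agent.X115.SS.t_D1 hA1 Pool.Agent.X226.A3.t_A3 hB1
  have hD2 := Pool.Agent.X195.SS.t_D2 hB1
  have hD3 := Pool.Agent.X115.SS.t_D3 hA1 hA2 hB1
  refine main_bound hD1 hD2 Pool.Agent.X122.DET1.t_DET1 Pool.Agent.X327.RS.t_DET2
    (Pool.Agent.X72.RSR.t_ROW hD2 hD3) Pool.Agent.X30.RS.t_HR Pool.Agent.X107.RS.TR.t Pool.Agent.X304.RS.t_ERR hrd (by omega) hlr ?_ μ Om hOm hrk _ hC le_rfl
  have hcases : Module.finrank ℝ K = 1 ∨ Module.finrank ℝ K = 2 := by omega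
  rcases hcases with h | h <;> rw [h] <;> rw [h] at hα <;> omega

/-- **The randomized SVD is optimal among all sketch-based algorithms.** -/
theorem result : Statement ℝ 1 ∧ Statement ℂ 0 :=
  ⟨statement_of ℝ 1 (by rw [Module.finrank_self]) (by rw [Module.finrank_self]),
    statement_of ℂ 0 (by rw [Complex.finrank_real_complex]) (by rw [Complex.finrank_real_complex]; norm_num)⟩

end Pool.Agent.Results.MP_569b71_an.RandomizedSVDOptimal
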